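import Pool.Agent.Run7.h131.AD.Iface

/-!
# Project AD, piece DCL: the rings `O` and `O_p` are closed under `D`
-/

set_option autoImplicit false

namespace Run7.h958.AD

open Run7.h131.AD

theorem D_add (g h : PS) : D (g + h) = D g + D h := map_add _ g h

theorem D_mul (g h : PS) : D (g * h) = g * D h + h * D g :=
  (PowerSeries.derivative ℚ).leibniz g h

theorem D_C (x : ℚ) : D (PowerSeries.C x) = 0 := by
  ext n
  simp [D]

theorem coeff_D (g : PS) (n : ℕ) :
    PowerSeries.coeff n (D g) = PowerSeries.coeff (n + 1) g * ((n : ℚ) + 1) := by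
  simp [D, PowerSeries.coeff_derivative]

theorem coeff_Dk (k : ℕ) : ∀ (g : PS) (j : ℕ),
    PowerSeries.coeff j (D^[k] g) * (j.factorial : ℚ) =
      ((j + k).factorial : ℚ) * PowerSeries.coeff (j + k) g := by
  induction k with
  | zero => intro g j; simp [mul_comm]
  | succ k ih =>
    intro g j
    rw [Function.iterate_succ_apply, ih, coeff_D, ← add_assoc, Nat.factorial_succ]
    push_cast
    ring

theorem ev_Dk (k : ℕ) (g : PS) : ev (D^[k] g) = (k.factorial : ℚ) * PowerSeries.coeff k g := by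
  have h := coeff_Dk k g 0
  simpa [ev] using h

theorem ev_aeval {s : ℕ} (w : Fin s → PS) (P : MvPolynomial (Fin s) ℚ) :
    ev (MvPolynomial.aeval w P) = MvPolynomial.eval (c0 w) P := by
  unfold ev
  have h : (PowerSeries.constantCoeff (R := ℚ)).comp (MvPolynomial.aeval w).toRingHom =
      MvPolynomial.eval (c0 w) := by
    ext i
    · simp
    · simp [c0, ev]
  exact congrArg (fun f => f P) h

/-- the second variables at `w(0)` -/
noncomputable def sp {s : ℕ} (w : Fin s → PS) (H : MvPolynomial (Fin s ⊕ Fin s) ℚ) :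
    MvPolynomial (Fin s) ℚ :=
  MvPolynomial.bind₁ (Sum.elim MvPolynomial.X (fun i => MvPolynomial.C (c0 w i))) H

theorem aeval_sp {s : ℕ} (w : Fin s → PS) (H : MvPolynomial (Fin s ⊕ Fin s) ℚ) :
    MvPolynomial.aeval w (sp w H) = MvPolynomial.aeval (pt1 w) H := by
  unfold sp
  rw [MvPolynomial.aeval_bind₁]
  congr 2
  funext x
  rcases x with i | i
  · simp [pt1]
  · simp only [Sum.elim_inr, pt1, MvPolynomial.aeval_C]
    rfl

theorem eval_sp {s : ℕ} (w : Fin s → PS) (H : MvPolynomial (Fin s ⊕ Fin s) ℚ) :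
    MvPolynomial.eval (c0 w) (sp w H) = MvPolynomial.eval (pt0 w) H := by
  unfold sp
  rw [MvPolynomial.eval, MvPolynomial.eval₂Hom_bind₁]
  congr 2
  funext x
  rcases x with i | i
  · simp [pt0]
  · simp [pt0]

/-- the chain rule -/
theorem D_aeval {s : ℕ} (w : Fin s → PS) (P : MvPolynomial (Fin s) ℚ) :
    D (MvPolynomial.aeval w P) = ∑ i, MvPolynomial.aeval w (MvPolynomial.pderiv i P) * D (w i) := by
  induction P using MvPolynomial.induction_on with
  | C x =>
    have h1 : MvPolynomial.aeval w (MvPolynomial.C x) = PowerSeries.C x := by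
      rw [MvPolynomial.aeval_C]
      rfl
    rw [h1, D_C]
    simp
  | add P Q hP hQ =>
    rw [map_add, D_add, hP, hQ, ← Finset.sum_add_distrib]
    refine Finset.sum_congr rfl fun i _ => ?_
    rw [map_add, map_add, add_mul]
  | mul_X P i hP =>
    rw [map_mul, D_mul, hP, MvPolynomial.aeval_X, Finset.mul_sum]
    have h2 : ∀ j, MvPolynomial.aeval w (MvPolynomial.pderiv j (P * MvPolynomial.X i)) * D (w j) =
        (if j = i then MvPolynomial.aeval w P * D (w i) else 0) +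
          w i * (MvPolynomial.aeval w (MvPolynomial.pderiv j P) * D (w j)) := by
      intro j
      rw [MvPolynomial.pderiv_mul, MvPolynomial.pderiv_X, map_add, map_mul, map_mul,
        MvPolynomial.aeval_X]
      by_cases hj : j = i
      · subst hj
        simp
        ring
      · rw [if_neg hj, Pi.single_eq_of_ne (fun h => hj h.symm)]
        simp
        ring
    simp only [h2, Finset.sum_add_distrib]
    simp

theorem D_formula (hV : S_VID) {s : ℕ} {w : Fin s → PS}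
    {N M : Fin s → MvPolynomial (Fin s ⊕ Fin s) ℚ} (h : AddThm w N M) (i : Fin s) :
    D (w i) = ∑ j, PowerSeries.C (ev (D (w j))) * vv w N M i j := by
  have hd : PtDer ((⊤ : Subring PS) : Set PS) (fun g => ev (D g)) := by
    refine ⟨?_, ?_, ?_⟩
    · intro g _ h _
      show ev (D (g + h)) = ev (D g) + ev (D h)
      rw [D_add]
      exact map_add _ _ _
    · intro g _ h _
      show ev (D (g * h)) = ev g * ev (D h) + ev h * ev (D g)
      rw [D_mul]
      unfold ev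
      rw [map_add, map_mul, map_mul]
    · intro x
      show ev (D (PowerSeries.C x)) = 0
      rw [D_C]
      exact map_zero _
  have h1 := hV s w N M h ⊤ (fun x => trivial) (fun i k => trivial) (fun g => ev (D g)) hd i
  rw [← h1]
  ext k
  unfold del
  rw [PowerSeries.coeff_mk]
  show PowerSeries.coeff k (D (w i)) = ev (D (D^[k] (w i))) / (k.factorial : ℚ)
  have h2 : D (D^[k] (w i)) = D^[k + 1] (w i) := (Function.iterate_succ_apply' D k (w i)).symm
  rw [h2, ev_Dk, coeff_D, Nat.factorial_succ]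
  have h3 : (k.factorial : ℚ) ≠ 0 := by exact_mod_cast k.factorial_ne_zero
  push_cast
  field_simp

theorem t_DCL (hZ : S_ZZZ) (hR : S_RNG) (hV : S_VID) : S_DCL := by
  intro s w N M h
  have hform := fun i => D_formula hV h i
  refine ⟨hform, ?_⟩
  -- the general argument
  have key : ∀ (S : Subring PS) (W : Set (MvPolynomial (Fin s) ℚ)),
      (∀ P ∈ W, MvPolynomial.aeval w P ∈ S) → (∀ P ∈ W, ∀ i, MvPolynomial.pderiv i P ∈ W) →
      (∀ i, w i ∈ S) → (∀ j, PowerSeries.C (ev (D (w j))) ∈ S) →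
      (∀ i j, MvPolynomial.aeval (pt1 w) (MvPolynomial.pderiv (Sum.inr j) (N i)) ∈ S) →
      (∀ i j, MvPolynomial.aeval (pt1 w) (MvPolynomial.pderiv (Sum.inr j) (M i)) ∈ S) →
      (∀ i, (MvPolynomial.aeval (pt1 w) (M i))⁻¹ ∈ S) →
      (∀ i j, vv w N M i j ∈ S) ∧ ∀ P ∈ W, ∀ Q ∈ W, ∀ g ∈ S, ev (MvPolynomial.aeval w Q) ≠ 0 →
        (MvPolynomial.aeval w Q)⁻¹ ∈ S →
        MvPolynomial.aeval w Q * g = MvPolynomial.aeval w P → D g ∈ S := by
    intro S W hW hW' hw hc hN hM hMi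
    have hvv : ∀ i j, vv w N M i j ∈ S := fun i j =>
      S.mul_mem (S.sub_mem (hN i j) (S.mul_mem (hw i) (hM i j))) (hMi i)
    have hDw : ∀ i, D (w i) ∈ S := by
      intro i
      rw [hform i]
      exact S.sum_mem fun j _ => S.mul_mem (hc j) (hvv i j)
    have hDP : ∀ P ∈ W, D (MvPolynomial.aeval w P) ∈ S := by
      intro P hP
      rw [D_aeval]
      exact S.sum_mem fun i _ => S.mul_mem (hW _ (hW' P hP i)) (hDw i)
    refine ⟨hvv, ?_⟩
    intro P hP Q hQ g hg hQ0 hQi hPQ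
    have e1 : D (MvPolynomial.aeval w P) = MvPolynomial.aeval w Q * D g +
        g * D (MvPolynomial.aeval w Q) := by
      rw [← hPQ, D_mul]
    have e2 : MvPolynomial.aeval w Q * D g =
        D (MvPolynomial.aeval w P) - g * D (MvPolynomial.aeval w Q) := by
      rw [e1]
      ring
    have e3 : (MvPolynomial.aeval w Q)⁻¹ * MvPolynomial.aeval w Q = 1 :=
      PowerSeries.inv_mul_cancel _ hQ0
    have e4 : D g = (MvPolynomial.aeval w Q)⁻¹ *
        (D (MvPolynomial.aeval w P) - g * D (MvPolynomial.aeval w Q)) := by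
      rw [← e2, ← mul_assoc, e3, one_mul]
    rw [e4]
    exact S.mul_mem hQi (S.sub_mem (hDP P hP) (S.mul_mem hg (hDP Q hQ)))
  have hO : (∀ i j, vv w N M i j ∈ OQ w) ∧ (∀ g ∈ OQ w, D g ∈ OQ w) := by
    obtain ⟨S, hS, hC, hw, hinv⟩ := hR.1 s w
    have hmem : ∀ g, g ∈ S ↔ g ∈ OQ w := fun g => by rw [← hS]; rfl
    have hW : ∀ P ∈ (Set.univ : Set (MvPolynomial (Fin s) ℚ)), MvPolynomial.aeval w P ∈ S := by
      intro P _
      rw [hmem]
      exact ⟨P, 1, by simp, by simp⟩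
    have hq : ∀ H : MvPolynomial (Fin s ⊕ Fin s) ℚ, MvPolynomial.aeval (pt1 w) H ∈ S := by
      intro H
      rw [← aeval_sp]
      exact hW _ trivial
    have hMi : ∀ i, (MvPolynomial.aeval (pt1 w) (M i))⁻¹ ∈ S := by
      intro i
      refine hinv _ (hq _) ?_
      rw [← aeval_sp, ev_aeval, eval_sp]
      exact h.unit i
    obtain ⟨k1, k2⟩ := key S Set.univ hW (fun _ _ _ => trivial) hw (fun j => hC _)
      (fun i j => hq _) (fun i j => hq _) hMi
    refine ⟨fun i j => (hmem _).1 (k1 i j), ?_⟩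
    rintro g ⟨P, Q, hQ0, hPQ⟩
    rw [← hmem]
    have hQ0' : ev (MvPolynomial.aeval w Q) ≠ 0 := by
      rw [ev_aeval]
      exact hQ0
    exact k2 P trivial Q trivial g ((hmem g).2 ⟨P, Q, hQ0, hPQ⟩) hQ0'
      (hinv _ (hW Q trivial) hQ0') hPQ
  refine ⟨hO.1, hO.2, ?_⟩
  intro p hp
  obtain ⟨hZ1, hZ2, hZ3, hZ4, hZ5, hZ6, hZ7, hZ8⟩ := hZ
  obtain ⟨S, hS, hC, hw, hev, hOO, hinv⟩ := hR.2 p s w hp.prime hp.c
  have hmem : ∀ g, g ∈ S ↔ g ∈ OP p w := fun g => by rw [← hS]; rfl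
  have hPIc : ∀ x : ℚ, ZI p x → PI p (MvPolynomial.C x : MvPolynomial (Fin s) ℚ) := by
    intro x hx
    obtain ⟨T, hT, hT1, -⟩ := hZ5 p (Fin s) hp.prime
    have := hT1 x hx
    have h1 : (MvPolynomial.C x : MvPolynomial (Fin s) ℚ) ∈ (T : Set (MvPolynomial (Fin s) ℚ)) := this
    rw [hT] at h1
    exact h1
  have hPIX : ∀ i, PI p (MvPolynomial.X i : MvPolynomial (Fin s) ℚ) := by
    intro i
    obtain ⟨T, hT, -, hT2⟩ := hZ5 p (Fin s) hp.prime
    have h1 : (MvPolynomial.X i : MvPolynomial (Fin s) ℚ) ∈ (T : Set (MvPolynomial (Fin s) ℚ)) := hT2 i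
    rw [hT] at h1
    exact h1
  have hPI1 : PI p (1 : MvPolynomial (Fin s) ℚ) := by
    obtain ⟨T, hT, -, -⟩ := hZ5 p (Fin s) hp.prime
    have h1 : (1 : MvPolynomial (Fin s) ℚ) ∈ (T : Set (MvPolynomial (Fin s) ℚ)) := T.one_mem
    rw [hT] at h1
    exact h1
  have hZI1 : ZI p (1 : ℚ) := by
    obtain ⟨⟨T, hT⟩, -⟩ := hZ1 p hp.prime
    have h1 : (1 : ℚ) ∈ (T : Set ℚ) := T.one_mem
    rw [hT] at h1
    exact h1
  have hZU1 : ZU p (1 : ℚ) := ⟨one_ne_zero, hZI1, by rw [inv_one]; exact hZI1⟩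
  have hW : ∀ P ∈ {P : MvPolynomial (Fin s) ℚ | PI p P}, MvPolynomial.aeval w P ∈ S := by
    intro P hP
    rw [hmem]
    refine ⟨P, 1, hP, hPI1, ?_, by simp⟩
    rw [map_one]
    exact hZU1
  have hq : ∀ H : MvPolynomial (Fin s ⊕ Fin s) ℚ, PI p H → MvPolynomial.aeval (pt1 w) H ∈ S := by
    intro H hH
    rw [← aeval_sp]
    refine hW _ ?_
    refine hZ7 p (Fin s ⊕ Fin s) (Fin s) H _ hp.prime hH ?_
    intro x
    rcases x with i | i
    · exact hPIX i
    · exact hPIc _ (hp.c i)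
  have hMi : ∀ i, (MvPolynomial.aeval (pt1 w) (M i))⁻¹ ∈ S := by
    intro i
    refine hinv _ (hq _ (hp.hM i)) ?_
    rw [← aeval_sp, ev_aeval, eval_sp]
    exact hp.unit i
  obtain ⟨k1, k2⟩ := key S {P | PI p P} hW (fun P hP i => hZ6 p (Fin s) P i hp.prime hP) hw
    (fun j => hC _ (hp.c1 j)) (fun i j => hq _ (hZ6 p _ _ _ hp.prime (hp.hN i)))
    (fun i j => hq _ (hZ6 p _ _ _ hp.prime (hp.hM i))) hMi
  refine ⟨fun i j => (hmem _).1 (k1 i j), ?_⟩
  rintro g ⟨P, Q, hP, hQ, hQ0, hPQ⟩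
  rw [← hmem]
  have hQ0' : ZU p (ev (MvPolynomial.aeval w Q)) := by
    rw [ev_aeval]
    exact hQ0
  exact k2 P hP Q hQ g ((hmem g).2 ⟨P, Q, hP, hQ, hQ0, hPQ⟩) hQ0'.1 (hinv _ (hW Q hQ) hQ0') hPQ

end Run7.h958.AD
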